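import Pool.Agent.H84.B.Targets

/-!
# Module VDC of MP_02e9fb_an: the van der Corput estimate
-/

open scoped ComplexConjugate InnerProductSpace
open Filter Topology

namespace Pool.Agent.H85.BVdc

open Pool.Agent.H84.B

variable {Λ : Type} [CommRing Λ] {A : Type} [CommRing A] [StarRing A] [Algebra ℂ A]
    [StarModule ℂ A] {H : Type} [NormedAddCommGroup H] [InnerProductSpace ℂ H] [CompleteSpace H]

lemma inner_PH (R : Rep Λ H) (B : Finset ℕ) (x z : H) (hx : x ∈ R.HB B) :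
    ⟪x, R.PH B z⟫_ℂ = ⟪x, z⟫_ℂ := by
  unfold Rep.PH
  rw [← Submodule.inner_starProjection_left_eq_right, Submodule.starProjection_eq_self_iff.2 hx]

lemma norm_PH_le (R : Rep Λ H) (B : Finset ℕ) (z : H) : ‖R.PH B z‖ ≤ ‖z‖ :=
  Submodule.norm_starProjection_apply_le _ z

lemma norm_PR_mono (R : Rep Λ H) (B B' : Finset ℕ) (h : R.RB B ≤ R.RB B') (z : H) :
    ‖R.PR B z‖ ≤ ‖R.PR B' z‖ := by
  have h1 : R.PR B (R.PR B' z) = R.PR B z := by
    have := Submodule.starProjection_comp_starProjection_of_le (U := R.RB B) (V := R.RB B') h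
    have h2 := DFunLike.congr_fun this z
    exact h2
  rw [← h1]
  exact Submodule.norm_starProjection_apply_le _ _

lemma norm_star (hBd : T_Bd) (S : Sys Λ A H) (a : A) : ‖S.ι (star a)‖ = ‖S.ι a‖ := by
  obtain ⟨h1, -⟩ := hBd Λ A H S
  have e1 := h1 (star a) (star a)
  have e2 := h1 a a
  rw [star_star, mul_comm] at e1
  rw [e2] at e1
  have e3 : (‖S.ι a‖ : ℝ) ^ 2 = ‖S.ι (star a)‖ ^ 2 := by
    have := congrArg Complex.re e1
    rw [inner_self_eq_norm_sq_to_K, inner_self_eq_norm_sq_to_K] at this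
    norm_cast at this
  have e4 := (sq_eq_sq₀ (norm_nonneg _) (norm_nonneg _)).1 e3
  exact e4.symm

lemma VA_fix (S : Sys Λ A H) (f : A) (hf : S.ι f ∈ S.HB ∅) (σ : FP) : S.VA σ f = f := by
  apply S.ι_inj
  rw [S.ι_V]
  exact hf σ (by simp)

lemma supp_smul (k : Λ) (y : Y Λ) (X : Finset ℕ) (h : y.1.support ⊆ X) :
    (k • y).1.support ⊆ X := (Finsupp.support_smul (b := k) (g := y.1)).trans h

lemma off_smul (k : Λ) (y : Y Λ) (X : Finset ℕ) (h : Off y X) : Off (k • y) X :=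
  Finset.disjoint_of_subset_left (Finsupp.support_smul (b := k) (g := y.1)) h

lemma dsj_smul (k : Λ) (y y' : Y Λ) (h : Dsj y y') : Dsj (k • y) (k • y') :=
  Finset.disjoint_of_subset_left (Finsupp.support_smul (b := k) (g := y.1))
    (Finset.disjoint_of_subset_right (Finsupp.support_smul (b := k) (g := y'.1)) h)

lemma UA_HB (hbasic : T_basic) (S : Sys Λ A H) (f : A) (hf : S.ι f ∈ S.HB ∅) (c : Y Λ)
    (X : Finset ℕ) (hc : c.1.support ⊆ X) : S.ι (S.UA c f) ∈ S.HB X := by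
  obtain ⟨h1, -, h3, -⟩ := hbasic Λ H S.toRep
  rw [S.ι_U]
  exact h3 X c _ hc (h1 ∅ X (Finset.empty_subset _) hf)

lemma supp_pY (σ : FP) (y : Y Λ) : (pY σ y).1.support = y.1.support.map σ.1.toEmbedding := by
  ext i
  simp only [Finsupp.mem_support_iff, Finset.mem_map, Equiv.coe_toEmbedding]
  constructor
  · intro h
    exact ⟨σ.1.symm i, h, by simp⟩
  · rintro ⟨j, hj, rfl⟩
    rw [pY_apply, Equiv.symm_apply_apply]
    exact hj

/-- the core estimate for the off-diagonal terms -/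
lemma offdiag (hconj : T_conj) (hhh : T_hh) (hbasic : T_basic) (hmult : T_mult) (hBd : T_Bd)
    (S : Sys Λ A H) (p : ℕ) (β : ℕ → Λ) (k1 k2 : Λ) (f1 f2 : A) (C : ℝ) (m m' : ℕ) (ε' : ℝ)
    (hf1 : S.ι f1 ∈ S.HB ∅) (hf2 : S.ι f2 ∈ S.HB ∅) (hC : S.Bd C f1)
    (hM : ∀ h' : Y Λ, IsCopy (hh p β 0 m') h' →
      Off h' ((hh p β 0 m).1.support ∪ (hh p β ((p + 1) * m) m).1.support) →
      ‖S.PH ((hh p β 0 m).1.support ∪ (hh p β ((p + 1) * m) m).1.support)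
          (S.U ((k2 - k1) • h') (S.ι (star (S.UA (k2 • hh p β 0 m) f2)
            * S.UA (k2 • hh p β ((p + 1) * m) m) f2)))
        - S.PR ((hh p β 0 m).1.support ∪ (hh p β ((p + 1) * m) m).1.support)
          (S.ι (star (S.UA (k2 • hh p β 0 m) f2) * S.UA (k2 • hh p β ((p + 1) * m) m) f2))‖ ≤ ε')
    (g g' h y : Y Λ) (hg : IsCopy (hh p β 0 m) g) (hg' : IsCopy (hh p β 0 m) g')
    (hh' : IsCopy (hh p β 0 m') h) (dgg : Dsj g g') (dgh : Dsj g h) (dgh' : Dsj g' h)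
    (dgy : Dsj g y) (dgy' : Dsj g' y) (dhy : Dsj h y) :
    ‖⟪S.ι (S.UA (k1 • (g + h + y)) f1 * S.UA (k2 • (g + h + y)) f2),
      S.ι (S.UA (k1 • (g' + h + y)) f1 * S.UA (k2 • (g' + h + y)) f2)⟫_ℂ‖
      ≤ C ^ 2 * (S.q p β k2 m f2 + ε') := by
  obtain ⟨Btr, -, -, Bn, Bstar, Bmul, -, -, -, BUA, -, -, -, Hmul, Hstar, -, -, -, UA0, UAadd, VUA,
    trU, -⟩ := hBd Λ A H S
  obtain ⟨Pk1, Pk2, Pk3, Pk4, Pk5, Pk6, Pk7, Pk8, Pk9, Pk10, Pk11, Pk12, Pk13, Pk14⟩ := hhh Λ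
  obtain ⟨B1, B2, B3, B4, B5, B6, B7, B8, B9, B10, B11, B12⟩ := hbasic Λ H S.toRep
  set a := k2 - k1 with ha
  set g1 := hh p β 0 m with hg1
  set g2 := hh p β ((p + 1) * m) m with hg2
  set X0 := g1.1.support ∪ g2.1.support with hX0
  set G0 := star (S.UA (k2 • g1) f2) * S.UA (k2 • g2) f2 with hG0
  -- the conjugating permutation
  have hg12 : Dsj g1 g2 := by
    unfold Dsj
    rw [Finset.disjoint_left]
    intro i h1 h2
    have e1 := Pk13 p β 0 m i (Finsupp.mem_support_iff.1 h1)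
    have e2 := Pk13 p β ((p + 1) * m) m i (Finsupp.mem_support_iff.1 h2)
    omega
  have c2 : IsCopy g1 g2 := Pk11 p β ((p + 1) * m) m
  obtain ⟨σ, -, hσ⟩ := hconj Λ ∅ 2 ![g1, g2] ![g, g']
    (by
      intro n
      fin_cases n
      · exact hg
      · exact Pk8 _ _ _ (Pk7 _ _ c2) hg')
    (by intro n; exact Finset.disjoint_empty_right _)
    (by intro n; exact Finset.disjoint_empty_right _)
    (by
      intro n n' hnn
      fin_cases n <;> fin_cases n'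
      · exact absurd rfl hnn
      · exact hg12
      · exact Disjoint.symm hg12
      · exact absurd rfl hnn)
    (by
      intro n n' hnn
      fin_cases n <;> fin_cases n'
      · exact absurd rfl hnn
      · exact dgg
      · exact Disjoint.symm dgg
      · exact absurd rfl hnn)
  have hσ1 : g = pY σ g1 := hσ 0
  have hσ2 : g' = pY σ g2 := hσ 1
  set X := X0.map σ.1.toEmbedding with hX
  have hXeq : X = g.1.support ∪ g'.1.support := by
    rw [hX, hX0, Finset.map_union, hσ1, hσ2, supp_pY, supp_pY]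
  have hoffh : Off h X := by
    unfold Off
    rw [hXeq, Finset.disjoint_union_right]
    exact ⟨Disjoint.symm dgh, Disjoint.symm dgh'⟩
  have hoffy : Off y X := by
    unfold Off
    rw [hXeq, Finset.disjoint_union_right]
    exact ⟨Disjoint.symm dgy, Disjoint.symm dgy'⟩
  set G := star (S.UA (k2 • g) f2) * S.UA (k2 • g') f2 with hG
  set P := star (S.UA (k1 • g) f1) * S.UA (k1 • g') f1 with hP
  have hgX : g.1.support ⊆ X := by rw [hXeq]; exact Finset.subset_union_left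
  have hgX' : g'.1.support ⊆ X := by rw [hXeq]; exact Finset.subset_union_right
  have hPX : S.ι (star P) ∈ S.HB X := by
    refine Hstar X _ (Hmul X _ _ (Hstar X _ ?_) ?_)
    · exact UA_HB hbasic S f1 hf1 _ X (supp_smul _ _ _ hgX)
    · exact UA_HB hbasic S f1 hf1 _ X (supp_smul _ _ _ hgX')
  have hGX : S.ι G ∈ S.HB X := by
    refine Hmul X _ _ (Hstar X _ ?_) ?_
    · exact UA_HB hbasic S f2 hf2 _ X (supp_smul _ _ _ hgX)
    · exact UA_HB hbasic S f2 hf2 _ X (supp_smul _ _ _ hgX')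
  have hPn : ‖S.ι (star P)‖ ≤ C ^ 2 := by
    have : S.Bd (C * C) (star P) :=
      Bstar _ _ (Bmul _ _ _ _ (Bstar _ _ (BUA _ _ _ hC)) (BUA _ _ _ hC))
    rw [sq]
    exact Bn _ _ this
  -- rewrite the inner product
  have hinner : ⟪S.ι (S.UA (k1 • (g + h + y)) f1 * S.UA (k2 • (g + h + y)) f2),
      S.ι (S.UA (k1 • (g' + h + y)) f1 * S.UA (k2 • (g' + h + y)) f2)⟫_ℂ
      = ⟪S.ι (star P), S.PH X (S.U (a • y) (S.PH X (S.U (a • h) (S.ι G))))⟫_ℂ := by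
    obtain ⟨M1, -, -⟩ := hmult Λ H S.toRep X
    rw [← M1 (a • y) (a • h) (S.ι G) hGX (off_smul _ _ _ hoffy) (off_smul _ _ _ hoffh)
      (dsj_smul _ _ _ (Disjoint.symm dhy)), inner_PH _ _ _ _ hPX]
    rw [← Btr, ← trU (-(k1 • (h + y)))]
    rw [← S.ι_U, ← Btr, star_star]
    congr 1
    have u1 : ∀ (w : Y Λ) (f : A), S.UA (-(k1 • (h + y))) (S.UA w f)
        = S.UA (-(k1 • (h + y)) + w) f := fun w f => (UAadd _ _ _).symm
    have u2 : ∀ (w : Y Λ) (f : A), S.UA (a • y + a • h) (S.UA w f)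
        = S.UA (a • y + a • h + w) f := fun w f => (UAadd _ _ _).symm
    have v1 : -(k1 • (h + y)) + k1 • (g + h + y) = k1 • g := by module
    have v2 : -(k1 • (h + y)) + k1 • (g' + h + y) = k1 • g' := by module
    have v3 : -(k1 • (h + y)) + k2 • (g + h + y) = a • y + a • h + k2 • g := by
      rw [ha]; module
    have v4 : -(k1 • (h + y)) + k2 • (g' + h + y) = a • y + a • h + k2 • g' := by
      rw [ha]; module
    rw [hP, hG]
    simp only [map_mul, map_star, star_mul, u1, u2, v1, v2, v3, v4]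
    ring
  rw [hinner]
  -- the norm bound
  have hV : S.ι G = S.V σ (S.ι G0) := by
    rw [← S.ι_V, hG, hG0]
    congr 1
    simp only [map_mul, map_star, VUA, Pk2, VA_fix S f2 hf2, ← hσ1, ← hσ2]
  have hh2 : IsCopy (hh p β 0 m') (pY σ⁻¹ h) := Pk8 _ _ _ hh' ⟨σ⁻¹, rfl⟩
  have hoff2 : Off (pY σ⁻¹ h) X0 := by
    unfold Off
    rw [Finset.disjoint_left]
    intro i hi hi2
    rw [supp_pY, Finset.mem_map] at hi
    obtain ⟨j, hj, rfl⟩ := hi
    have : j ∈ X := by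
      rw [hX, Finset.mem_map]
      refine ⟨_, hi2, ?_⟩
      change σ.1 (σ.1⁻¹ j) = j
      simp
    exact (Finset.disjoint_left.1 hoffh) hj this
  have hbound : ‖S.PH X (S.U (a • h) (S.ι G))‖ ≤ S.q p β k2 m f2 + ε' := by
    have e1 : S.PH X (S.U (a • h) (S.ι G)) = S.V σ (S.PH X0 (S.U (a • pY σ⁻¹ h) (S.ι G0))) := by
      rw [B7, hV, S.VU, Pk2, ← Pk4, mul_inv_cancel, Pk5]
    rw [e1, LinearIsometryEquiv.norm_map]
    have e2 := hM _ hh2 hoff2
    have e3 : ‖S.PH X0 (S.U (a • pY σ⁻¹ h) (S.ι G0))‖ ≤ ‖S.PR X0 (S.ι G0)‖ + ε' := by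
      have := norm_sub_norm_le (S.PH X0 (S.U (a • pY σ⁻¹ h) (S.ι G0))) (S.PR X0 (S.ι G0))
      linarith
    refine e3.trans ?_
    have e4 : ‖S.PR X0 (S.ι G0)‖ ≤ S.q p β k2 m f2 := by
      have hsub : X0 ⊆ W p m := by
        intro i hi
        unfold W
        rw [Finset.mem_range]
        rw [hX0, Finset.mem_union] at hi
        rcases hi with hi | hi
        · have := Pk13 p β 0 m i (Finsupp.mem_support_iff.1 hi)
          omega
        · have := Pk13 p β ((p + 1) * m) m i (Finsupp.mem_support_iff.1 hi)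
          omega
      refine (norm_PR_mono _ _ _ (B2 _ _ hsub) _).trans ?_
      have hg1W : g1.1.support ⊆ W p m := Finset.subset_union_left.trans hsub
      have e5 : S.ι G0 = S.U (k2 • g1) (S.ι (S.UA (k2 • bb p β m) f2 * star f2)) := by
        rw [← S.ι_U]
        congr 1
        have : k2 • g2 = k2 • g1 + k2 • bb p β m := by
          have : bb p β m = g2 - g1 := rfl
          rw [this]
          module
        rw [hG0, map_mul, map_star, ← UAadd, ← this, mul_comm]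
      rw [e5, ← B10 _ _ _ (supp_smul _ _ _ hg1W), LinearIsometryEquiv.norm_map]
      exact le_refl _
    linarith
  calc ‖⟪S.ι (star P), S.PH X (S.U (a • y) (S.PH X (S.U (a • h) (S.ι G))))⟫_ℂ‖
      ≤ ‖S.ι (star P)‖ * ‖S.PH X (S.U (a • y) (S.PH X (S.U (a • h) (S.ι G))))‖ :=
        norm_inner_le_norm _ _
    _ ≤ C ^ 2 * (S.q p β k2 m f2 + ε') := by
        refine mul_le_mul hPn ?_ (norm_nonneg _) (by positivity)
        refine (norm_PH_le _ _ _).trans ?_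
        rw [LinearIsometryEquiv.norm_map]
        exact hbound

theorem VDC (hconj : T_conj) (hcop : T_copies) (hhh : T_hh) (hbasic : T_basic) (hmult : T_mult)
    (hPR : T_PRlim) (hBd : T_Bd) : T_VDC := by
  intro Λ _ A _ _ _ _ H _ _ _ S p _ ρ β k1 k2 f1 f2 C m ε hβ hk1 hk2 hk hf1 hf2 hC hε
  obtain ⟨Btr, -, -, Bn, Bstar, Bmul, -, -, -, BUA, -, -, -, Hmul, Hstar, -, -, -, UA0, UAadd, VUA,
    trU, trV⟩ := hBd Λ A H S
  obtain ⟨Pk1, Pk2, Pk3, Pk4, Pk5, Pk6, Pk7, Pk8, Pk9, Pk10, Pk11, Pk12, Pk13, Pk14⟩ := hhh Λ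
  have hC0 : 0 ≤ C := hC.1
  set ε' : ℝ := ε / (2 * (C ^ 2 + 1)) with hε'
  have hε'0 : 0 < ε' := by positivity
  have hCε : C ^ 2 * ε' ≤ ε / 2 := by
    rw [hε']
    have : C ^ 2 * (ε / (2 * (C ^ 2 + 1))) = (C ^ 2 / (C ^ 2 + 1)) * (ε / 2) := by
      field_simp
    rw [this]
    have h1 : C ^ 2 / (C ^ 2 + 1) ≤ 1 := by
      rw [div_le_one (by positivity)]
      linarith
    have := mul_le_mul_of_nonneg_right h1 (by positivity : 0 ≤ ε / 2)
    linarith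
  obtain ⟨N, hN⟩ := exists_nat_gt (2 * (C ^ 2 * ‖S.ι f2‖ ^ 2) / ε)
  have hNr : (0 : ℝ) < N := lt_of_le_of_lt (by positivity) hN
  have hN1 : C ^ 2 * ‖S.ι f2‖ ^ 2 ≤ N * (ε / 2) := by
    rw [div_lt_iff₀ hε] at hN
    linarith
  set X0 := (hh p β 0 m).1.support ∪ (hh p β ((p + 1) * m) m).1.support with hX0
  set z0 := S.ι (star (S.UA (k2 • hh p β 0 m) f2) * S.UA (k2 • hh p β ((p + 1) * m) m) f2) with hz0
  have hz0X : z0 ∈ S.HB X0 := by
    refine Hmul X0 _ _ (Hstar X0 _ ?_) ?_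
    · exact UA_HB hbasic S f2 hf2 _ X0 (supp_smul _ _ _ Finset.subset_union_left)
    · exact UA_HB hbasic S f2 hf2 _ X0 (supp_smul _ _ _ Finset.subset_union_right)
  obtain ⟨M, hM⟩ := hPR Λ H S.toRep p ρ β (k2 - k1) X0 z0 ε' hβ hk hz0X hε'0
  refine ⟨M, ?_⟩
  intro m' hm' g h y hg hh' dgh dgy dhy f0 hf0
  have hoff := offdiag hconj hhh hbasic hmult hBd S p β k1 k2 f1 f2 C m m' ε' hf1 hf2 hC
    (fun h' c o => hM m' hm' h' c o)
  obtain ⟨c, hc, hcB, hcc⟩ := hcop Λ g (h.1.support ∪ y.1.support) N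
  have hch : ∀ n, Dsj (c n) h := fun n => (Finset.disjoint_union_right.1 (hcB n)).1
  have hcy : ∀ n, Dsj (c n) y := fun n => (Finset.disjoint_union_right.1 (hcB n)).2
  set F : Fin N → A := fun n =>
    S.UA (k1 • (c n + h + y)) f1 * S.UA (k2 • (c n + h + y)) f2 with hF
  set T := S.tr (f0 * S.UA (k1 • (g + h + y)) f1 * S.UA (k2 • (g + h + y)) f2) with hT
  have hTn : ∀ n, ⟪S.ι (star f0), S.ι (F n)⟫_ℂ = T := by
    intro n
    rw [← Btr, star_star]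
    obtain ⟨σ, hσ, hσ2⟩ := hconj Λ (h.1.support ∪ y.1.support) 1 (fun _ => g) (fun _ => c n)
      (fun _ => hc n)
      (fun _ => by
        unfold Off
        rw [Finset.disjoint_union_right]
        exact ⟨dgh, dgy⟩)
      (fun _ => hcB n)
      (fun n n' hn => absurd (Subsingleton.elim n n') hn)
      (fun n n' hn => absurd (Subsingleton.elim n n') hn)
    have e1 : c n = pY σ g := hσ2 0
    have e2 : pY σ h = h := Pk10 σ h (fun i hi =>
      hσ i (Finset.mem_union_left _ (Finsupp.mem_support_iff.2 hi)))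
    have e3 : pY σ y = y := Pk10 σ y (fun i hi =>
      hσ i (Finset.mem_union_right _ (Finsupp.mem_support_iff.2 hi)))
    rw [hT, ← trV σ (f0 * S.UA (k1 • (g + h + y)) f1 * S.UA (k2 • (g + h + y)) f2)]
    congr 1
    simp only [hF, map_mul, VUA, Pk1, Pk2, VA_fix S f1 hf1, VA_fix S f2 hf2, VA_fix S f0 hf0, e2, e3,
      ← e1, mul_assoc]
  have hsum : (N : ℂ) * T = ⟪S.ι (star f0), ∑ n, S.ι (F n)⟫_ℂ := by
    rw [inner_sum]
    simp only [hTn]
    simp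
  have hnorm : (N : ℝ) * ‖T‖ ≤ ‖S.ι f0‖ * ‖∑ n, S.ι (F n)‖ := by
    have h1 : ‖(N : ℂ) * T‖ = N * ‖T‖ := by
      rw [norm_mul]
      simp
    rw [← h1, hsum, ← norm_star hBd S f0]
    exact norm_inner_le_norm _ _
  have hdiag : ∀ n, ‖⟪S.ι (F n), S.ι (F n)⟫_ℂ‖ ≤ C ^ 2 * ‖S.ι f2‖ ^ 2 := by
    intro n
    refine (norm_inner_le_norm _ _).trans ?_
    have h1 : ‖S.ι (F n)‖ ≤ C * ‖S.ι f2‖ := by
      have := (BUA C f1 (k1 • (c n + h + y)) hC).2 (S.UA (k2 • (c n + h + y)) f2)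
      rw [S.ι_U, LinearIsometryEquiv.norm_map] at this
      exact this
    calc ‖S.ι (F n)‖ * ‖S.ι (F n)‖ ≤ (C * ‖S.ι f2‖) * (C * ‖S.ι f2‖) :=
          mul_le_mul h1 h1 (norm_nonneg _) (by positivity)
      _ = C ^ 2 * ‖S.ι f2‖ ^ 2 := by ring
  have hq0 : 0 ≤ S.q p β k2 m f2 := norm_nonneg _
  have hsq : ‖∑ n, S.ι (F n)‖ ^ 2 ≤ N ^ 2 * (C ^ 2 * S.q p β k2 m f2 + ε) := by
    have h1 : (‖∑ n, S.ι (F n)‖ : ℝ) ^ 2 = ‖⟪∑ n, S.ι (F n), ∑ n, S.ι (F n)⟫_ℂ‖ := by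
      rw [inner_self_eq_norm_sq_to_K]
      simp
    rw [h1, sum_inner]
    simp only [inner_sum]
    have hnd : ∀ n, ‖∑ n', ⟪S.ι (F n), S.ι (F n')⟫_ℂ‖
        ≤ C ^ 2 * ‖S.ι f2‖ ^ 2 + N * (C ^ 2 * (S.q p β k2 m f2 + ε')) := by
      intro n
      refine (norm_sum_le _ _).trans ?_
      rw [← Finset.add_sum_erase _ _ (Finset.mem_univ n)]
      refine add_le_add (hdiag n) ?_
      have hpos : 0 ≤ C ^ 2 * (S.q p β k2 m f2 + ε') := by positivity
      calc ∑ n' ∈ Finset.univ.erase n, ‖⟪S.ι (F n), S.ι (F n')⟫_ℂ‖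
          ≤ ∑ n' ∈ Finset.univ.erase n, C ^ 2 * (S.q p β k2 m f2 + ε') := by
            refine Finset.sum_le_sum ?_
            intro n' hn'
            have hne : n ≠ n' := (Finset.ne_of_mem_erase hn').symm
            exact hoff (c n) (c n') h y (Pk8 _ _ _ hg (hc n)) (Pk8 _ _ _ hg (hc n')) hh'
              (hcc n n' hne) (hch n) (hch n') (hcy n) (hcy n') dhy
        _ ≤ ∑ n' : Fin N, C ^ 2 * (S.q p β k2 m f2 + ε') :=
            Finset.sum_le_sum_of_subset_of_nonneg (Finset.erase_subset _ _)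
              (fun _ _ _ => hpos)
        _ = N * (C ^ 2 * (S.q p β k2 m f2 + ε')) := by simp
    calc ‖∑ n, ∑ n', ⟪S.ι (F n), S.ι (F n')⟫_ℂ‖
        ≤ ∑ n, ‖∑ n', ⟪S.ι (F n), S.ι (F n')⟫_ℂ‖ := norm_sum_le _ _
      _ ≤ ∑ n : Fin N, (C ^ 2 * ‖S.ι f2‖ ^ 2 + N * (C ^ 2 * (S.q p β k2 m f2 + ε'))) :=
          Finset.sum_le_sum fun n _ => hnd n
      _ = N * (C ^ 2 * ‖S.ι f2‖ ^ 2 + N * (C ^ 2 * (S.q p β k2 m f2 + ε'))) := by
          simp
          ring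
      _ ≤ N ^ 2 * (C ^ 2 * S.q p β k2 m f2 + ε) := by
          have e1 : (N : ℝ) * (C ^ 2 * ‖S.ι f2‖ ^ 2) ≤ N * (N * (ε / 2)) :=
            mul_le_mul_of_nonneg_left hN1 hNr.le
          have e2 : (N : ℝ) * (N * (C ^ 2 * ε')) ≤ N * (N * (ε / 2)) :=
            mul_le_mul_of_nonneg_left (mul_le_mul_of_nonneg_left hCε hNr.le) hNr.le
          nlinarith
  have hN2 : (0 : ℝ) < (N : ℝ) ^ 2 := by positivity
  have hfin : ((N : ℝ) * ‖T‖) ^ 2 ≤ ‖S.ι f0‖ ^ 2 * (N ^ 2 * (C ^ 2 * S.q p β k2 m f2 + ε)) := by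
    calc ((N : ℝ) * ‖T‖) ^ 2 ≤ (‖S.ι f0‖ * ‖∑ n, S.ι (F n)‖) ^ 2 :=
          pow_le_pow_left₀ (by positivity) hnorm 2
      _ = ‖S.ι f0‖ ^ 2 * ‖∑ n, S.ι (F n)‖ ^ 2 := by ring
      _ ≤ ‖S.ι f0‖ ^ 2 * (N ^ 2 * (C ^ 2 * S.q p β k2 m f2 + ε)) :=
          mul_le_mul_of_nonneg_left hsq (by positivity)
  have : (N : ℝ) ^ 2 * ‖T‖ ^ 2 ≤ (N : ℝ) ^ 2 * (‖S.ι f0‖ ^ 2 * (C ^ 2 * S.q p β k2 m f2 + ε)) := by
    calc (N : ℝ) ^ 2 * ‖T‖ ^ 2 = ((N : ℝ) * ‖T‖) ^ 2 := by ring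
      _ ≤ _ := hfin
      _ = _ := by ring
  exact le_of_mul_le_mul_left this hN2

end Pool.Agent.H85.BVdc
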